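import Pool.Agent.helper14.XG.SpecA

set_option autoImplicit false

namespace Pool.Agent.XG

open Finset SimpleGraph Pool.Agent.XT

theorem SPR_sumP {n : ℕ} (B : FS n) (S : Finset (Fin n)) :
    ∑ p ∈ S, (dP B p).card = (B.filter (fun e => e.1 ∈ S)).card := by
  classical
  have hfib := card_eq_sum_card_fiberwise (s := B.filter (fun e => e.1 ∈ S)) (t := S)
    (f := fun e : Fin n × Fin n => e.1) (fun e he => by
      have h := mem_coe.1 he
      exact mem_coe.2 (mem_filter.1 h).2)
  rw [hfib]
  refine sum_congr rfl fun p hp => ?_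
  have h : (dP B p).image (fun l => (p, l)) =
      (B.filter (fun e => e.1 ∈ S)).filter (fun e => e.1 = p) := by
    ext ⟨q, l⟩
    simp only [dP, mem_image, mem_filter, mem_univ, true_and, Prod.mk.injEq]
    constructor
    · rintro ⟨a, h1, rfl, rfl⟩
      exact ⟨⟨h1, hp⟩, rfl⟩
    · rintro ⟨⟨h1, _⟩, h3⟩
      exact ⟨l, h3 ▸ h1, h3.symm, rfl⟩
  rw [← h, card_image_of_injective]
  intro a b hab
  exact (Prod.mk.inj hab).2

theorem SPR_sumL {n : ℕ} (B : FS n) (S : Finset (Fin n)) :
    ∑ l ∈ S, (dL B l).card = (B.filter (fun e => e.2 ∈ S)).card := by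
  classical
  have hfib := card_eq_sum_card_fiberwise (s := B.filter (fun e => e.2 ∈ S)) (t := S)
    (f := fun e : Fin n × Fin n => e.2) (fun e he => by
      have h := mem_coe.1 he
      exact mem_coe.2 (mem_filter.1 h).2)
  rw [hfib]
  refine sum_congr rfl fun l hl => ?_
  have h : (dL B l).image (fun p => (p, l)) =
      (B.filter (fun e => e.2 ∈ S)).filter (fun e => e.2 = l) := by
    ext ⟨q, m⟩
    simp only [dL, mem_image, mem_filter, mem_univ, true_and, Prod.mk.injEq]
    constructor
    · rintro ⟨a, h1, rfl, rfl⟩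
      exact ⟨⟨h1, hl⟩, rfl⟩
    · rintro ⟨⟨h1, _⟩, h3⟩
      exact ⟨q, h3 ▸ h1, rfl, h3.symm⟩
  rw [← h, card_image_of_injective]
  intro a b hab
  exact (Prod.mk.inj hab).1

theorem SPR_dP_insert {n : ℕ} (B : FS n) (p q l : Fin n) :
    (dP (insert (p, l) B) q).card ≤ (dP B q).card + (if q = p then 1 else 0) := by
  classical
  by_cases h : q = p
  · subst h
    rw [if_pos rfl]
    have : dP (insert (q, l) B) q ⊆ insert l (dP B q) := by
      intro m hm
      simp only [dP, mem_filter, mem_univ, true_and, mem_insert, Prod.mk.injEq] at hm ⊢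
      tauto
    exact (card_le_card this).trans (card_insert_le _ _)
  · rw [if_neg h, add_zero]
    refine card_le_card ?_
    intro m hm
    simp only [dP, mem_filter, mem_univ, true_and, mem_insert, Prod.mk.injEq] at hm ⊢
    tauto

theorem SPR_dL_insert {n : ℕ} (B : FS n) (p l m : Fin n) :
    (dL (insert (p, l) B) m).card ≤ (dL B m).card + (if m = l then 1 else 0) := by
  classical
  by_cases h : m = l
  · subst h
    rw [if_pos rfl]
    have : dL (insert (p, m) B) m ⊆ insert p (dL B m) := by
      intro q hq
      simp only [dL, mem_filter, mem_univ, true_and, mem_insert, Prod.mk.injEq] at hq ⊢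
      tauto
    exact (card_le_card this).trans (card_insert_le _ _)
  · rw [if_neg h, add_zero]
    refine card_le_card ?_
    intro q hq
    simp only [dL, mem_filter, mem_univ, true_and, mem_insert, Prod.mk.injEq] at hq ⊢
    tauto

theorem SPR : SPR_stmt := by
  classical
  intro n D D' B hD' hDD hP hL
  set Sub : Finset (FS n) := B.powerset.filter (fun S => (∀ p, (dP S p).card ≤ D') ∧
    ∀ l, (dL S l).card ≤ D') with hSub
  have hne : Sub.Nonempty := by
    refine ⟨∅, ?_⟩
    rw [hSub, mem_filter]
    refine ⟨mem_powerset.2 (empty_subset _), ?_, ?_⟩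
    · intro p
      simp [dP]
    · intro l
      simp [dL]
  obtain ⟨B', hB', hmax⟩ := exists_max_image Sub (fun S => S.card) hne
  rw [hSub, mem_filter, mem_powerset] at hB'
  obtain ⟨hsub, hP', hL'⟩ := hB'
  refine ⟨B', hsub, hP', hL', ?_⟩
  set SP : Finset (Fin n) := univ.filter (fun p => (dP B' p).card = D') with hSP
  set SL : Finset (Fin n) := univ.filter (fun l => (dL B' l).card = D') with hSL
  have hcov : B \ B' ⊆ B.filter (fun e => e.1 ∈ SP) ∪ B.filter (fun e => e.2 ∈ SL) := by
    rintro ⟨p, l⟩ he
    rw [mem_sdiff] at he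
    by_contra hcon
    have h1' : (dP B' p).card < D' := by
      refine lt_of_le_of_ne (hP' p) fun h => hcon ?_
      exact mem_union_left _ (mem_filter.2 ⟨he.1, mem_filter.2 ⟨mem_univ _, h⟩⟩)
    have h2' : (dL B' l).card < D' := by
      refine lt_of_le_of_ne (hL' l) fun h => hcon ?_
      exact mem_union_right _ (mem_filter.2 ⟨he.1, mem_filter.2 ⟨mem_univ _, h⟩⟩)
    have hin : insert (p, l) B' ∈ Sub := by
      rw [hSub, mem_filter, mem_powerset]
      refine ⟨insert_subset he.1 hsub, ?_, ?_⟩
      · intro q
        have := SPR_dP_insert B' p q l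
        by_cases hq : q = p
        · subst hq
          rw [if_pos rfl] at this
          omega
        · rw [if_neg hq] at this
          have := hP' q
          omega
      · intro m
        have := SPR_dL_insert B' p l m
        by_cases hq : m = l
        · subst hq
          rw [if_pos rfl] at this
          omega
        · rw [if_neg hq] at this
          have := hL' m
          omega
    have := hmax _ hin
    rw [card_insert_of_notMem he.2] at this
    omega
  have hSPc : D' * SP.card ≤ B'.card := by
    have h1 := SPR_sumP B' SP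
    have h2 : ∑ p ∈ SP, (dP B' p).card = SP.card * D' := by
      rw [← smul_eq_mul, ← sum_const]
      exact sum_congr rfl fun p hp => (mem_filter.1 hp).2
    have h3 : (B'.filter (fun e => e.1 ∈ SP)).card ≤ B'.card := card_filter_le _ _
    rw [mul_comm, ← h2, h1]
    exact h3
  have hSLc : D' * SL.card ≤ B'.card := by
    have h1 := SPR_sumL B' SL
    have h2 : ∑ l ∈ SL, (dL B' l).card = SL.card * D' := by
      rw [← smul_eq_mul, ← sum_const]
      exact sum_congr rfl fun l hl => (mem_filter.1 hl).2
    have h3 : (B'.filter (fun e => e.2 ∈ SL)).card ≤ B'.card := card_filter_le _ _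
    rw [mul_comm, ← h2, h1]
    exact h3
  have hc1 : (B.filter (fun e => e.1 ∈ SP)).card ≤ SP.card * D := by
    rw [← SPR_sumP, ← smul_eq_mul, ← sum_const]
    exact sum_le_sum fun p _ => hP p
  have hc2 : (B.filter (fun e => e.2 ∈ SL)).card ≤ SL.card * D := by
    rw [← SPR_sumL, ← smul_eq_mul, ← sum_const]
    exact sum_le_sum fun l _ => hL l
  have hd : (B \ B').card ≤ SP.card * D + SL.card * D :=
    (card_le_card hcov).trans ((card_union_le _ _).trans (Nat.add_le_add hc1 hc2))
  have hB : B.card = (B \ B').card + B'.card := (card_sdiff_add_card_eq_card hsub).symm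
  calc D' * B.card = D' * (B \ B').card + D' * B'.card := by rw [hB, mul_add]
    _ ≤ D' * (SP.card * D + SL.card * D) + D * B'.card :=
      Nat.add_le_add (Nat.mul_le_mul_left _ hd) (Nat.mul_le_mul_right _ hDD)
    _ = D * (D' * SP.card) + D * (D' * SL.card) + D * B'.card := by ring
    _ ≤ D * B'.card + D * B'.card + D * B'.card :=
      Nat.add_le_add_right (Nat.add_le_add (Nat.mul_le_mul_left _ hSPc)
        (Nat.mul_le_mul_left _ hSLc)) _
    _ = 3 * D * B'.card := by ring

end Pool.Agent.XG
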