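import Pool.Agent.helper14.XG.Spec

set_option autoImplicit false

namespace Pool.Agent.XG

open Finset Pool.Agent.XT

theorem CHO : CHO_stmt := by
  classical
  intro α P R hR
  set M := P.card with hM
  set i : α → ℕ := fun p => (P.filter (fun r => ¬ R p r)).card with hi
  set H := P.filter (fun p => M < 4 * i p) with hH
  have hI : ((P ×ˢ P).filter (fun e => ¬ R e.1 e.2)).card = ∑ p ∈ P, i p := by
    rw [card_filter, sum_product]
    refine sum_congr rfl fun p _ => ?_
    simp only [hi]
    rw [card_filter]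
  have hHM : H.card * M ≤ 4 * ∑ p ∈ P, i p := by
    calc H.card * M = ∑ p ∈ H, M := by rw [sum_const, smul_eq_mul]
      _ ≤ ∑ p ∈ H, 4 * i p := sum_le_sum fun p hp => (mem_filter.1 hp).2.le
      _ ≤ ∑ p ∈ P, 4 * i p := sum_le_sum_of_subset (filter_subset _ _)
      _ = 4 * ∑ p ∈ P, i p := by rw [mul_sum]
  have hcount : ∀ p q, M ≤ (P.filter (fun r => R p r ∧ R q r)).card + i p + i q := by
    intro p q
    have h1 : P ⊆ P.filter (fun r => R p r ∧ R q r) ∪ P.filter (fun r => ¬ R p r) ∪
        P.filter (fun r => ¬ R q r) := by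
      intro r hr
      simp only [mem_union, mem_filter]
      by_cases h1 : R p r
      · by_cases h2 : R q r
        · exact Or.inl (Or.inl ⟨hr, h1, h2⟩)
        · exact Or.inr ⟨hr, h2⟩
      · exact Or.inl (Or.inr ⟨hr, h1⟩)
    calc M ≤ _ := card_le_card h1
      _ ≤ (P.filter (fun r => R p r ∧ R q r) ∪ P.filter (fun r => ¬ R p r)).card +
          (P.filter (fun r => ¬ R q r)).card := card_union_le _ _
      _ ≤ _ := by
        have := card_union_le (P.filter (fun r => R p r ∧ R q r)) (P.filter (fun r => ¬ R p r))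
        simp only [hi]
        omega
  have hsub : (P ×ˢ P).filter (fun e => 2 * (P.filter (fun r => R e.1 r ∧ R e.2 r)).card < M) ⊆
      H ×ˢ P ∪ P ×ˢ H := by
    intro e he
    rw [mem_filter, mem_product] at he
    obtain ⟨⟨h1, h2⟩, h3⟩ := he
    have h4 := hcount e.1 e.2
    rw [mem_union, mem_product, mem_product, hH, mem_filter, mem_filter]
    by_cases h5 : M < 4 * i e.1
    · exact Or.inl ⟨⟨h1, h5⟩, h2⟩
    · refine Or.inr ⟨h1, h2, ?_⟩
      omega
  calc ((P ×ˢ P).filter (fun e => 2 * (P.filter (fun r => R e.1 r ∧ R e.2 r)).card < M)).card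
      ≤ (H ×ˢ P ∪ P ×ˢ H).card := card_le_card hsub
    _ ≤ (H ×ˢ P).card + (P ×ˢ H).card := card_union_le _ _
    _ = H.card * M + M * H.card := by rw [card_product, card_product]
    _ ≤ 8 * ((P ×ˢ P).filter (fun e => ¬ R e.1 e.2)).card := by
      rw [hI, Nat.mul_comm M]
      omega

end Pool.Agent.XG
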