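import Pool.Agent.helper14.XG.Spec

set_option autoImplicit false

namespace Pool.Agent.XG

open Finset Pool.Agent.XT

/-- Tuples of two 4-paths with common ends. -/
abbrev INC_T (n : ℕ) := (Fin n × Fin n) × (Fin n × Fin n × Fin n) × (Fin n × Fin n × Fin n)

section
variable {n : ℕ} (B : FS n) (Nr : Fin n → Fin n → Prop) (F : Fin n → Fin n → Finset (VV n))
  (t t' : ℝ)

def INC_b (z : INC_T n) : Prop :=
  z.2.1 ∈ PP B Nr F t z.1.1 z.1.2 ∧ z.2.2 ∈ PP B Nr F t z.1.1 z.1.2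

def INC_1 (z : INC_T n) : Prop :=
  z.2.1 ∈ PP B Nr F t z.1.1 z.1.2 ∧ z.2.2 ∈ PP B Nr F t z.1.1 z.1.2 ∧ (z.2.2.2.1, z.2.1.1) ∈ B

def INC_2 (z : INC_T n) : Prop :=
  z.2.1 ∈ PP B Nr F t z.1.1 z.1.2 ∧ z.2.2 ∈ PP B Nr F t z.1.1 z.1.2 ∧
    (z.2.2.2.1, z.2.1.1) ∉ B ∧ t' < (nn B Nr z.2.1.1 z.2.2.2.1 : ℝ)

def INC_3 (z : INC_T n) : Prop :=
  z.2.1 ∈ PP B Nr F t z.1.1 z.1.2 ∧ z.2.2 ∈ PP B Nr F t z.1.1 z.1.2 ∧
    (Sum.inl z.2.2.2.1 ∈ F z.2.1.2.1 z.1.1 ∨ Sum.inr z.2.2.1 ∈ F z.2.1.2.1 z.1.1)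

def INC_A (z : INC_T n) : Prop := INC_1 B Nr F t z ∨ INC_2 B Nr F t t' z ∨ INC_3 B Nr F t z

end

def INC_sw {n : ℕ} (z : INC_T n) : INC_T n := (z.1, z.2.2, z.2.1)

def INC_rv {n : ℕ} (z : INC_T n) : INC_T n :=
  ((z.1.2, z.1.1), (z.2.1.2.2, z.2.1.2.1, z.2.1.1), (z.2.2.2.2, z.2.2.2.1, z.2.2.1))

theorem INC_sw_inj {n : ℕ} : Function.Injective (INC_sw (n := n)) := by
  rintro ⟨⟨a, b⟩, ⟨l, x, m⟩, ⟨l', x', m'⟩⟩ ⟨⟨c, d⟩, ⟨k, y, j⟩, ⟨k', y', j'⟩⟩ h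
  simp only [INC_sw, Prod.mk.injEq] at h ⊢
  tauto

theorem INC_rv_inj {n : ℕ} : Function.Injective (INC_rv (n := n)) := by
  rintro ⟨⟨a, b⟩, ⟨l, x, m⟩, ⟨l', x', m'⟩⟩ ⟨⟨c, d⟩, ⟨k, y, j⟩, ⟨k', y', j'⟩⟩ h
  simp only [INC_rv, Prod.mk.injEq] at h ⊢
  tauto

theorem INC_pre {n : ℕ} (φ : INC_T n → INC_T n) (hφ : Function.Injective φ) (A : INC_T n → Prop)
    (b : ℝ) (h : ∀ Z : Finset (INC_T n), (∀ z ∈ Z, A z) → (Z.card : ℝ) ≤ b) :
    ∀ Z : Finset (INC_T n), (∀ z ∈ Z, A (φ z)) → (Z.card : ℝ) ≤ b := by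
  classical
  intro Z hZ
  have := h (Z.image φ) (by
    intro z hz
    obtain ⟨w, hw, rfl⟩ := mem_image.1 hz
    exact hZ w hw)
  rwa [card_image_of_injective _ hφ] at this

theorem INC_case (hBAS : BAS_stmt) {n : ℕ} (B : FS n) (Nr : Fin n → Fin n → Prop)
    (F : Fin n → Fin n → Finset (VV n)) (hS : Sy B Nr F) (t t' : ℝ) (z : INC_T n)
    (h1 : z.2.1 ∈ PP B Nr F t z.1.1 z.1.2) (h2 : z.2.2 ∈ PP B Nr F t z.1.1 z.1.2)
    (h3 : ¬ Ty B Nr F t' z.2.1.2.1 z.2.1.1 z.1.1 z.2.2.1 z.2.2.2.1) :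
    INC_A B Nr F t t' z ∨ INC_A B Nr F t t' (INC_sw z) := by
  classical
  obtain ⟨⟨a, b⟩, ⟨l, x, m⟩, ⟨l', x', m'⟩⟩ := z
  have hB := hBAS n B Nr F hS
  by_contra hcon
  simp only [INC_A, INC_1, INC_2, INC_3, INC_sw, not_or, not_and, not_lt] at hcon
  simp only at h1 h2 h3
  obtain ⟨⟨c1, c2, c3⟩, d1, d2, d3⟩ := hcon
  have c1' := c1 h1 h2
  have c2' := c2 h1 h2 c1'
  have c3' := c3 h1 h2
  have d1' := d1 h2 h1
  have d2' := d2 h2 h1 d1'
  have d3' := d3 h2 h1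
  have t1 : Ty B Nr F t a l x m b := by
    have := h1
    rw [PP, mem_filter] at this
    exact this.2
  have t2 : Ty B Nr F t a l' x' m' b := by
    have := h2
    rw [PP, mem_filter] at this
    exact this.2
  apply h3
  obtain ⟨e1, _, e3, e4, _⟩ := t1
  obtain ⟨f1, _, f3, f4, _⟩ := t2
  exact ⟨hB.2.1 a x e1, f1, e4, e3, f3, f4, c1', d1', c2', d2', c3'.1, c3'.2, d3'.1, d3'.2⟩

theorem INC (hBAS : BAS_stmt) (hIN1 : IN1_stmt) (hIN2 : IN2_stmt) (hIN3 : IN3_stmt)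
    (hC6L : C6L_stmt) : INC_stmt := by
  classical
  obtain ⟨C6, hC6, hQ⟩ := hC6L
  have hKK : (0 : ℝ) < (KK : ℝ) ^ 2 := by
    unfold KK
    norm_num
  refine ⟨4 * ((KK : ℝ) ^ 2 * 12001 + (KK : ℝ) ^ 2 * C6), by positivity, ?_⟩
  intro n D B Nr F hS hD hD0 t t' ht ht'
  set b1 : ℝ := (KK : ℝ) ^ 2 * t * n * (D : ℝ) ^ 4 with hb1
  set b2 : ℝ := (KK : ℝ) ^ 2 * t * (D : ℝ) ^ 2 * (QQ B Nr : ℝ) / t' with hb2
  set b3 : ℝ := 12000 * (KK : ℝ) ^ 2 * t * n * (D : ℝ) ^ 4 with hb3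
  have k1 : ∀ Z : Finset (INC_T n), (∀ z ∈ Z, INC_1 B Nr F t z) → (Z.card : ℝ) ≤ b1 :=
    hIN1 n D B Nr F hS hD t ht
  have k2 : ∀ Z : Finset (INC_T n), (∀ z ∈ Z, INC_2 B Nr F t t' z) → (Z.card : ℝ) ≤ b2 :=
    hIN2 n D B Nr F hS hD t t' ht ht'
  have k3 : ∀ Z : Finset (INC_T n), (∀ z ∈ Z, INC_3 B Nr F t z) → (Z.card : ℝ) ≤ b3 :=
    hIN3 n D B Nr F hS hD t ht
  have kA : ∀ Z : Finset (INC_T n), (∀ z ∈ Z, INC_A B Nr F t t' z) →
      (Z.card : ℝ) ≤ b1 + b2 + b3 := by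
    intro Z hZ
    have hsub : Z ⊆ Z.filter (fun z => INC_1 B Nr F t z) ∪ Z.filter (fun z => INC_2 B Nr F t t' z) ∪
        Z.filter (fun z => INC_3 B Nr F t z) := by
      intro z hz
      simp only [mem_union, mem_filter]
      rcases hZ z hz with h | h | h
      · exact Or.inl (Or.inl ⟨hz, h⟩)
      · exact Or.inl (Or.inr ⟨hz, h⟩)
      · exact Or.inr ⟨hz, h⟩
    have hc : Z.card ≤ (Z.filter (fun z => INC_1 B Nr F t z)).card +
        (Z.filter (fun z => INC_2 B Nr F t t' z)).card +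
        (Z.filter (fun z => INC_3 B Nr F t z)).card :=
      (card_le_card hsub).trans ((card_union_le _ _).trans
        (Nat.add_le_add_right (card_union_le _ _) _))
    have hc' : (Z.card : ℝ) ≤ ((Z.filter (fun z => INC_1 B Nr F t z)).card : ℝ) +
        ((Z.filter (fun z => INC_2 B Nr F t t' z)).card : ℝ) +
        ((Z.filter (fun z => INC_3 B Nr F t z)).card : ℝ) := by
      exact_mod_cast hc
    have e1 := k1 (Z.filter (fun z => INC_1 B Nr F t z)) (fun z hz => (mem_filter.1 hz).2)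
    have e2 := k2 (Z.filter (fun z => INC_2 B Nr F t t' z)) (fun z hz => (mem_filter.1 hz).2)
    have e3 := k3 (Z.filter (fun z => INC_3 B Nr F t z)) (fun z hz => (mem_filter.1 hz).2)
    linarith
  have hB := hBAS n B Nr F hS
  set Z : Finset (INC_T n) := univ.filter (fun z => z.2.1 ∈ PP B Nr F t z.1.1 z.1.2 ∧
    z.2.2 ∈ PP B Nr F t z.1.1 z.1.2 ∧ ¬ Cp B Nr F t' z.1.1 z.1.2 z.2.1 z.2.2) with hZ
  have hIC : IC B Nr F t t' = Z.card := by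
    have hz : Z.card = ∑ e : Fin n × Fin n, ((PP B Nr F t e.1 e.2 ×ˢ PP B Nr F t e.1 e.2).filter
        (fun q => ¬ Cp B Nr F t' e.1 e.2 q.1 q.2)).card := by
      rw [hZ, card_filter, Fintype.sum_prod_type]
      apply Finset.sum_congr rfl
      intro e _
      have he : (PP B Nr F t e.1 e.2 ×ˢ PP B Nr F t e.1 e.2).filter
          (fun q => ¬ Cp B Nr F t' e.1 e.2 q.1 q.2) =
          univ.filter (fun q : (Fin n × Fin n × Fin n) × (Fin n × Fin n × Fin n) =>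
            q.1 ∈ PP B Nr F t e.1 e.2 ∧ q.2 ∈ PP B Nr F t e.1 e.2 ∧
            ¬ Cp B Nr F t' e.1 e.2 q.1 q.2) := by
        ext q
        simp only [mem_filter, mem_product, mem_univ, true_and, and_assoc]
      rw [he, card_filter]
    rw [hz]
    rfl
  have hsub : Z ⊆ univ.filter (fun z : INC_T n => INC_A B Nr F t t' z) ∪
      univ.filter (fun z : INC_T n => INC_A B Nr F t t' (INC_sw z)) ∪
      (univ.filter (fun z : INC_T n => INC_A B Nr F t t' (INC_rv z)) ∪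
      univ.filter (fun z : INC_T n => INC_A B Nr F t t' (INC_sw (INC_rv z)))) := by
    intro z hz
    rw [hZ, mem_filter] at hz
    obtain ⟨_, h1, h2, h3⟩ := hz
    simp only [mem_union, mem_filter, mem_univ, true_and]
    by_cases h4 : Ty B Nr F t' z.2.1.2.1 z.2.1.1 z.1.1 z.2.2.1 z.2.2.2.1
    · right
      have h5 : ¬ Ty B Nr F t' z.2.1.2.1 z.2.1.2.2 z.1.2 z.2.2.2.2 z.2.2.2.1 := fun h5 =>
        h3 ⟨h4, h5⟩
      refine INC_case hBAS B Nr F hS t t' (INC_rv z) ?_ ?_ h5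
      · have := h1
        rw [PP, mem_filter] at this
        rw [PP, mem_filter]
        exact ⟨mem_univ _, (hB.2.2.2.2.2.1 _ _ _ _ _ _ this.2).1⟩
      · have := h2
        rw [PP, mem_filter] at this
        rw [PP, mem_filter]
        exact ⟨mem_univ _, (hB.2.2.2.2.2.1 _ _ _ _ _ _ this.2).1⟩
    · left
      exact INC_case hBAS B Nr F hS t t' z h1 h2 h4
  have q1 := kA (univ.filter (fun z : INC_T n => INC_A B Nr F t t' z))
    (fun z hz => (mem_filter.1 hz).2)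
  have q2 := INC_pre INC_sw INC_sw_inj _ _ kA
    (univ.filter (fun z : INC_T n => INC_A B Nr F t t' (INC_sw z)))
    (fun z hz => (mem_filter.1 hz).2)
  have q3 := INC_pre INC_rv INC_rv_inj _ _ kA
    (univ.filter (fun z : INC_T n => INC_A B Nr F t t' (INC_rv z)))
    (fun z hz => (mem_filter.1 hz).2)
  have q4 := INC_pre (fun z => INC_sw (INC_rv z)) (INC_sw_inj.comp INC_rv_inj) _ _ kA
    (univ.filter (fun z : INC_T n => INC_A B Nr F t t' (INC_sw (INC_rv z))))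
    (fun z hz => (mem_filter.1 hz).2)
  have hc : Z.card ≤ ((univ.filter (fun z : INC_T n => INC_A B Nr F t t' z)).card +
      (univ.filter (fun z : INC_T n => INC_A B Nr F t t' (INC_sw z))).card) +
      ((univ.filter (fun z : INC_T n => INC_A B Nr F t t' (INC_rv z))).card +
      (univ.filter (fun z : INC_T n => INC_A B Nr F t t' (INC_sw (INC_rv z)))).card) :=
    (card_le_card hsub).trans ((card_union_le _ _).trans
      (Nat.add_le_add (card_union_le _ _) (card_union_le _ _)))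
  have hc' : (Z.card : ℝ) ≤ (((univ.filter (fun z : INC_T n => INC_A B Nr F t t' z)).card : ℝ) +
      ((univ.filter (fun z : INC_T n => INC_A B Nr F t t' (INC_sw z))).card : ℝ)) +
      (((univ.filter (fun z : INC_T n => INC_A B Nr F t t' (INC_rv z))).card : ℝ) +
      ((univ.filter (fun z : INC_T n => INC_A B Nr F t t' (INC_sw (INC_rv z)))).card : ℝ)) := by
    exact_mod_cast hc
  have hQ' := hQ n D B Nr F hS hD hD0
  have hD0' : (0 : ℝ) < D := by exact_mod_cast hD0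
  have hb2' : b2 ≤ (KK : ℝ) ^ 2 * C6 * (t * n * (D : ℝ) ^ 5 / t') := by
    have ht'0 : 0 < t' := by linarith
    have ht0 : 0 < t := by linarith
    rw [hb2]
    calc (KK : ℝ) ^ 2 * t * (D : ℝ) ^ 2 * (QQ B Nr : ℝ) / t'
        ≤ (KK : ℝ) ^ 2 * t * (D : ℝ) ^ 2 * (C6 * n * (D : ℝ) ^ 3) / t' := by
          apply div_le_div_of_nonneg_right _ ht'0.le
          exact mul_le_mul_of_nonneg_left hQ' (by positivity)
      _ = (KK : ℝ) ^ 2 * C6 * (t * n * (D : ℝ) ^ 5 / t') := by ring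
  rw [hIC]
  have hb1' : 0 ≤ t * n * (D : ℝ) ^ 4 := by positivity
  have hb5' : 0 ≤ t * n * (D : ℝ) ^ 5 / t' := by positivity
  have hC6' : 0 ≤ (KK : ℝ) ^ 2 * C6 := by positivity
  have hs : b1 + b3 = (KK : ℝ) ^ 2 * 12001 * (t * n * (D : ℝ) ^ 4) := by
    rw [hb1, hb3]
    ring
  have hfin : 4 * (b1 + b2 + b3) ≤ 4 * ((KK : ℝ) ^ 2 * 12001 + (KK : ℝ) ^ 2 * C6) *
      (t * n * (D : ℝ) ^ 4 + t * n * (D : ℝ) ^ 5 / t') := by
    have e1 : 0 ≤ (KK : ℝ) ^ 2 * C6 * (t * n * (D : ℝ) ^ 4) := mul_nonneg hC6' hb1'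
    have e2 : 0 ≤ (KK : ℝ) ^ 2 * 12001 * (t * n * (D : ℝ) ^ 5 / t') := by positivity
    nlinarith
  linarith

end Pool.Agent.XG
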