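import Pool.Agent.helper14.XG.SpecA

set_option autoImplicit false

namespace Pool.Agent.XG

open Finset SimpleGraph Pool.Agent.XT

theorem SYX_gen {V : Type} [Fintype V] [DecidableEq V] (Pr : Finset V → Prop)
    (hc : ∀ S, Pr S → S.card ≤ 12 ∧ S.Nonempty)
    (hn : ¬ ∃ W : Finset (Finset V), 501 ≤ W.card ∧ (∀ S ∈ W, Pr S) ∧
      (W : Set (Finset V)).PairwiseDisjoint id) :
    ∃ F : Finset V, F.card ≤ 6000 ∧ ∀ S, Pr S → ¬ Disjoint S F := by
  classical
  set X : Finset (Finset (Finset V)) := Finset.univ.filter (fun W => (∀ S ∈ W, Pr S) ∧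
      (W : Set (Finset V)).PairwiseDisjoint id) with hX
  have hXm : ∀ W, W ∈ X ↔ (∀ S ∈ W, Pr S) ∧ (W : Set (Finset V)).PairwiseDisjoint id := by
    intro W
    rw [hX, Finset.mem_filter]
    exact ⟨fun h => h.2, fun h => ⟨Finset.mem_univ _, h⟩⟩
  have hXn : X.Nonempty := by
    refine ⟨∅, ?_⟩
    rw [hXm]
    refine ⟨fun S hS => absurd hS (Finset.notMem_empty S), ?_⟩
    rw [Finset.coe_empty]
    exact Set.pairwiseDisjoint_empty
  obtain ⟨W, hW, hmax⟩ := Finset.exists_max_image X (fun W => W.card) hXn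
  rw [hXm] at hW
  have hlt : W.card < 501 := by
    by_contra h
    push Not at h
    exact hn ⟨W, h, hW.1, hW.2⟩
  refine ⟨W.biUnion id, ?_, ?_⟩
  · have h1 : (W.biUnion id).card ≤ W.card * 12 := by
      apply Finset.card_biUnion_le_card_mul
      intro S hS
      exact (hc S (hW.1 S hS)).1
    omega
  · intro S hS hd
    have hSW : S ∉ W := by
      intro h
      obtain ⟨v, hv⟩ := (hc S hS).2
      exact Finset.disjoint_left.1 hd hv (Finset.mem_biUnion.2 ⟨S, h, hv⟩)
    have hin : insert S W ∈ X := by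
      rw [hXm]
      refine ⟨?_, ?_⟩
      · intro T hT
        rw [Finset.mem_insert] at hT
        rcases hT with rfl | hT
        · exact hS
        · exact hW.1 T hT
      · rw [Finset.coe_insert]
        refine hW.2.insert ?_
        intro T hT _
        rw [Finset.disjoint_left]
        intro v hv hv'
        exact Finset.disjoint_left.1 hd hv (Finset.mem_biUnion.2 ⟨T, hT, hv'⟩)
    have h2 := hmax _ hin
    rw [Finset.card_insert_of_notMem hSW] at h2
    omega

theorem SYX_F0 (hGAD : GAD_stmt) {n : ℕ} (B : FS n) (x y : Fin n) :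
    ∃ F : Finset (VV n), F.card ≤ 6000 ∧ (¬ Rb B x y → ∀ S, Gad B x y S → ¬ Disjoint S F) := by
  by_cases h : Rb B x y
  · exact ⟨∅, by simp, fun h' => absurd h h'⟩
  · obtain ⟨F, h1, h2⟩ := SYX_gen (Gad B x y) (fun S hS => by
      obtain ⟨_, _, h3, h4, _⟩ := hGAD n B x y S hS
      exact ⟨h3, h4⟩) h
    exact ⟨F, h1, fun _ => h2⟩

theorem SYX_sym (hGAD : GAD_stmt) {n : ℕ} (B : FS n) (x y : Fin n) (h : Rb B x y) : Rb B y x := by
  obtain ⟨W, h1, h2, h3⟩ := h
  exact ⟨W, h1, fun S hS => (hGAD n B x y S (h2 S hS)).1, h3⟩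

theorem SYX_good {n : ℕ} (B : FS n) (x l y : Fin n) (hxy : x ≠ y) (hx : (x, l) ∈ B)
    (hy : (y, l) ∈ B) (h : Rb B x y) : Good B x l y := by
  classical
  obtain ⟨W, h1, h2, h3⟩ := h
  refine ⟨hxy, hx, hy, W.filter (fun S => Sum.inr l ∉ S), ?_, ?_, ?_⟩
  · have hone : (W.filter (fun S => ¬ (Sum.inr l : VV n) ∉ S)).card ≤ 1 := by
      rw [card_le_one]
      intro S hS T hT
      rw [mem_filter, not_not] at hS hT
      by_contra hne
      have hd := h3 (mem_coe.2 hS.1) (mem_coe.2 hT.1) hne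
      exact Finset.disjoint_left.1 hd hS.2 hT.2
    have hsum := card_filter_add_card_filter_not (s := W) (fun S => (Sum.inr l : VV n) ∉ S)
    omega
  · intro S hS
    rw [mem_filter] at hS
    exact ⟨h2 S hS.1, hS.2⟩
  · exact h3.subset (by
      intro S hS
      exact mem_coe.2 (mem_filter.1 (mem_coe.1 hS)).1)

theorem SYX_main (hGAD : GAD_stmt) (n : ℕ) (B B' : FS n) (hBB : B' ⊆ B)
    (hGF : ∀ e ∈ B', e ∉ GF B) (Nr : Fin n → Fin n → Prop) (hNr : ∀ x y, Nr x y ↔ ¬ Rb B x y) :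
    ∃ F : Fin n → Fin n → Finset (VV n), Sy B' Nr F := by
  classical
  choose F0 hF0 hF0' using SYX_F0 hGAD B
  refine ⟨fun x y => if x ≤ y then F0 x y else F0 y x, ?_⟩
  refine ⟨?_, ?_, ?_, ?_, ?_⟩
  · intro x y h
    rw [hNr] at h ⊢
    exact fun h' => h (SYX_sym hGAD B y x h')
  · intro x y
    show (if x ≤ y then F0 x y else F0 y x) = if y ≤ x then F0 y x else F0 x y
    by_cases h1 : x ≤ y
    · by_cases h2 : y ≤ x
      · have : x = y := le_antisymm h1 h2
        subst this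
        rfl
      · rw [if_pos h1, if_neg h2]
    · have h2 : y ≤ x := (not_le.1 h1).le
      rw [if_neg h1, if_pos h2]
  · intro x y
    show (if x ≤ y then F0 x y else F0 y x).card ≤ 6000
    by_cases h1 : x ≤ y
    · rw [if_pos h1]
      exact hF0 x y
    · rw [if_neg h1]
      exact hF0 y x
  · intro x y S hR hG
    rw [hNr] at hR
    have hG1 : Gad B x y S := (hGAD n B' x y S hG).2.2.2.2.2.2.2 B hBB
    show ¬ Disjoint S (if x ≤ y then F0 x y else F0 y x)
    by_cases h1 : x ≤ y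
    · rw [if_pos h1]
      exact hF0' x y hR S hG1
    · rw [if_neg h1]
      exact hF0' y x (fun h => hR (SYX_sym hGAD B y x h)) S (hGAD n B x y S hG1).1
  · intro x l hxl
    have h1 := hGF _ hxl
    have hxB : (x, l) ∈ B := hBB hxl
    have h2 : ¬ 500 ≤ (Finset.univ.filter (fun y => Good B x l y)).card := by
      intro h
      apply h1
      rw [GF, mem_filter]
      exact ⟨hxB, h⟩
    refine le_trans (card_le_card ?_) (not_le.1 h2).le
    intro y hy
    rw [mem_filter] at hy ⊢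
    obtain ⟨_, h3, h4, h5⟩ := hy
    rw [hNr, not_not] at h5
    exact ⟨mem_univ _, SYX_good B x l y h4.symm hxB (hBB h3) h5⟩

theorem SYX (hGAD : GAD_stmt) : SYX_stmt := by
  intro n B B' hBB hGF
  exact SYX_main hGAD n B B' hBB hGF (fun x y => ¬ Rb B x y) (fun x y => Iff.rfl)

end Pool.Agent.XG
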